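import Mathlib

namespace Pool.Agent.Results.MP_9a0911_co.Exists

/-- A Latin square of order `n` on the symbols `Fin n`. -/
def IsLatin {n : ℕ} (L : Fin n → Fin n → Fin n) : Prop :=
  (∀ i, Function.Bijective fun j => L i j) ∧ ∀ j, Function.Bijective fun i => L i j

/-- Exactly `r` distinct ordered pairs occur when `L` and `M` are superimposed. -/
def ROrthogonal {n : ℕ} (r : ℕ) (L M : Fin n → Fin n → Fin n) : Prop :=
  (Finset.univ.image fun c : Fin n × Fin n => (L c.1 c.2, M c.1 c.2)).card = r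

/-- A `2 × 2` Latin subsquare in rows `i, i'` and columns `j, j'`. -/
def Subsquare {n : ℕ} (L : Fin n → Fin n → Fin n) (i i' j j' : Fin n) : Prop :=
  L i j = L i' j' ∧ L i j' = L i' j ∧ L i j ≠ L i j'

/-- Near-orthogonal pairs. -/
def NearOrthogonal {n : ℕ} (L M : Fin n → Fin n → Fin n) : Prop :=
  ROrthogonal (n ^ 2 - 2) L M ∧ ∃ i i' j j' : Fin n, i ≠ i' ∧ j ≠ j' ∧
    Subsquare L i i' j j' ∧ Subsquare M i i' j j' ∧
    ({L i j, L i j'} : Finset (Fin n)) = {M i j, M i j'}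

def L0 : Fin 6 → Fin 6 → Fin 6 :=
  ![![0, 2, 1, 3, 4, 5], ![4, 0, 3, 5, 2, 1], ![3, 1, 4, 2, 5, 0], ![5, 3, 2, 1, 0, 4],
    ![2, 4, 5, 0, 1, 3], ![1, 5, 0, 4, 3, 2]]

def M0 : Fin 6 → Fin 6 → Fin 6 :=
  ![![0, 5, 1, 2, 3, 4], ![2, 0, 3, 5, 4, 1], ![5, 2, 4, 1, 0, 3], ![1, 4, 0, 3, 2, 5],
    ![3, 1, 2, 4, 5, 0], ![4, 3, 5, 0, 1, 2]]

theorem key : ∀ i i' j j' : Fin 6, i ≠ i' → L0 i j = L0 i' j' → L0 i j' = L0 i' j →
    M0 i j = M0 i' j' → M0 i j' = M0 i' j → False := by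
  decide +kernel

/-- There is an `(n² - 2)`-orthogonal pair of Latin squares none of whose relabellings is
near-orthogonal. -/
theorem result : ∃ (n : ℕ) (L M : Fin n → Fin n → Fin n), IsLatin L ∧ IsLatin M ∧
    ROrthogonal (n ^ 2 - 2) L M ∧
    ∀ σ : Equiv.Perm (Fin n), ¬ NearOrthogonal L (fun i j => σ (M i j)) := by
  refine ⟨6, L0, M0, ?_, ?_, ?_, ?_⟩
  · unfold IsLatin; decide +kernel
  · unfold IsLatin; decide +kernel
  · unfold ROrthogonal; decide +kernel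
  · rintro σ ⟨-, i, i', j, j', hi, -, hL, hM, -⟩
    exact key i i' j j' hi hL.1 hL.2.1 (σ.injective hM.1) (σ.injective hM.2.1)

end Pool.Agent.Results.MP_9a0911_co.Exists
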